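import Pool.Agent.Helper84.WC.Basic

/-!
# WC-6: geometry of the warped cone
-/

open MeasureTheory Topology
open scoped ENNReal ZeroAtInfty InnerProductSpace

namespace Pool.Agent.Helper84.WC

section WC6
variable {M : Type*} [MetricSpace M] {G : Type*} [Group G] [MulAction G M]

private lemma wc6_coneDist_nonneg (p q : Cone M) : 0 ≤ coneDist p q := by
  unfold coneDist
  have h1 : (1 : ℝ) ≤ p.2 := p.2.2
  have h2 : (1 : ℝ) ≤ q.2 := q.2.2
  have h3 : 0 ≤ min (p.2 : ℝ) (q.2 : ℝ) := le_min (by linarith) (by linarith)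
  have h4 := mul_nonneg h3 (dist_nonneg (x := p.1) (y := q.1))
  have h5 := abs_nonneg ((p.2 : ℝ) - (q.2 : ℝ))
  linarith

private lemma wc6_coneDist_self (p : Cone M) : coneDist p p = 0 := by
  simp [coneDist]

private lemma wc6_coneDist_symm (p q : Cone M) : coneDist p q = coneDist q p := by
  simp only [coneDist]
  rw [abs_sub_comm, min_comm, dist_comm]

private lemma wc6_zero_isAdm (S : Set G) : IsAdm S (fun _ _ : Cone M => (0 : ℝ)) where
  self := fun _ => rfl
  symm := fun _ _ => rfl
  tri := fun _ _ _ => by simp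
  le_cone := fun p q => wc6_coneDist_nonneg p q
  le_one := fun _ _ _ _ => zero_le_one

private lemma wc6_nonempty (S : Set G) (p q : Cone M) :
    {r : ℝ | ∃ δ : Cone M → Cone M → ℝ, IsAdm S δ ∧ r = δ p q}.Nonempty :=
  ⟨0, fun _ _ => 0, wc6_zero_isAdm S, rfl⟩

private lemma wc6_bddAbove (S : Set G) (p q : Cone M) :
    BddAbove {r : ℝ | ∃ δ : Cone M → Cone M → ℝ, IsAdm S δ ∧ r = δ p q} := by
  refine ⟨coneDist p q, ?_⟩
  rintro r ⟨δ, hδ, rfl⟩
  exact hδ.le_cone p q

theorem le_warpDist {S : Set G} {δ : Cone M → Cone M → ℝ} (h : IsAdm S δ) (p q : Cone M) :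
    δ p q ≤ warpDist S p q :=
  le_csSup (wc6_bddAbove S p q) ⟨δ, h, rfl⟩

private lemma wc6_le {S : Set G} {p q : Cone M} {c : ℝ}
    (h : ∀ δ : Cone M → Cone M → ℝ, IsAdm S δ → δ p q ≤ c) : warpDist S p q ≤ c := by
  refine csSup_le (wc6_nonempty S p q) ?_
  rintro r ⟨δ, hδ, rfl⟩
  exact h δ hδ

/-- the warped distance is the largest admissible one -/
theorem warpDist_isAdm (S : Set G) : IsAdm S (warpDist S : Cone M → Cone M → ℝ) where
  self := fun p => le_antisymm (wc6_le fun δ hδ => (hδ.self p).le)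
    (le_warpDist (wc6_zero_isAdm S) p p)
  symm := fun p q => le_antisymm
    (wc6_le fun δ hδ => by rw [hδ.symm p q]; exact le_warpDist hδ q p)
    (wc6_le fun δ hδ => by rw [hδ.symm q p]; exact le_warpDist hδ p q)
  tri := fun p q r => wc6_le fun δ hδ =>
    (hδ.tri p q r).trans (add_le_add (le_warpDist hδ p q) (le_warpDist hδ q r))
  le_cone := fun p q => wc6_le fun δ hδ => hδ.le_cone p q
  le_one := fun s hs x t => wc6_le fun δ hδ => hδ.le_one s hs x t

theorem abs_le_warpDist (S : Set G) (p q : Cone M) : |(p.2 : ℝ) - q.2| ≤ warpDist S p q := by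
  have h : IsAdm S (fun p q : Cone M => |(p.2 : ℝ) - q.2|) := by
    refine ⟨fun p => by simp, fun p q => abs_sub_comm _ _,
      fun p q r => abs_sub_le _ _ _, fun p q => ?_, fun s hs x t => by simp⟩
    unfold coneDist
    have h1 : (1 : ℝ) ≤ p.2 := p.2.2
    have h2 : (1 : ℝ) ≤ q.2 := q.2.2
    have h3 : 0 ≤ min (p.2 : ℝ) (q.2 : ℝ) := le_min (by linarith) (by linarith)
    have h4 := mul_nonneg h3 (dist_nonneg (x := p.1) (y := q.1))
    linarith
  exact le_warpDist h p q

theorem warpDist_nonneg (S : Set G) (p q : Cone M) : 0 ≤ warpDist S p q :=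
  le_warpDist (wc6_zero_isAdm S) p q

theorem coneDist_tri (hM : ∀ x y : M, dist x y ≤ 2) (p q r : Cone M) :
    coneDist p r ≤ coneDist p q + coneDist q r := by
  obtain ⟨x, t, ht⟩ := p
  obtain ⟨y, s, hs⟩ := q
  obtain ⟨z, u, hu⟩ := r
  simp only [coneDist]
  have ht' : (1 : ℝ) ≤ t := ht
  have hs' : (1 : ℝ) ≤ s := hs
  have hu' : (1 : ℝ) ≤ u := hu
  have hd := dist_triangle x y z
  have hxz := hM x z
  have h0 := dist_nonneg (x := x) (y := z)
  have h1 := dist_nonneg (x := x) (y := y)
  have h2 := dist_nonneg (x := y) (y := z)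
  have habs := abs_sub_le t s u
  rcases le_or_gt (min t u) s with h | h
  · have hm1 : min t u ≤ min t s := le_min (min_le_left _ _) h
    have hm2 : min t u ≤ min s u := le_min h (min_le_right _ _)
    have hm0 : 0 ≤ min t u := le_min (by linarith) (by linarith)
    have e1 := mul_le_mul_of_nonneg_right hm1 h1
    have e2 := mul_le_mul_of_nonneg_right hm2 h2
    have e3 := mul_le_mul_of_nonneg_left hd hm0
    nlinarith
  · have hst : s < t := lt_of_lt_of_le h (min_le_left _ _)
    have hsu : s < u := lt_of_lt_of_le h (min_le_right _ _)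
    have m1 : min t s = s := min_eq_right hst.le
    have m2 : min s u = s := min_eq_left hsu.le
    rw [m1, m2, abs_of_pos (sub_pos.2 hst), abs_of_neg (sub_neg.2 hsu)]
    have e4 : |t - u| = t + u - 2 * min t u := by
      rcases le_total t u with h' | h'
      · rw [min_eq_left h', abs_of_nonpos (by linarith)]; ring
      · rw [min_eq_right h', abs_of_nonneg (by linarith)]; ring
    rw [e4]
    have e5 : 0 ≤ (min t u - s) * (2 - dist x z) :=
      mul_nonneg (by linarith) (by linarith)
    have e6 : s * dist x z ≤ s * (dist x y + dist y z) :=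
      mul_le_mul_of_nonneg_left hd (by linarith)
    nlinarith

theorem eq_of_warpDist_eq_zero (hM : ∀ x y : M, dist x y ≤ 2) (S : Set G) (p q : Cone M)
    (h : warpDist S p q = 0) : p = q := by
  have hadm : IsAdm S (fun p q : Cone M => min (coneDist p q) 1) := by
    refine ⟨fun p => by simp [wc6_coneDist_self], fun p q => by rw [wc6_coneDist_symm],
      fun p q r => ?_, fun p q => min_le_left _ _, fun s hs x t => min_le_right _ _⟩
    have h1 := coneDist_tri hM p q r
    have h2 := wc6_coneDist_nonneg p q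
    have h3 := wc6_coneDist_nonneg q r
    rcases le_total (coneDist p q) 1 with h4 | h4 <;>
      rcases le_total (coneDist q r) 1 with h5 | h5
    · rw [min_eq_left h4, min_eq_left h5]
      exact (min_le_left _ _).trans h1
    · rw [min_eq_left h4, min_eq_right h5]
      exact (min_le_right _ _).trans (by linarith)
    · rw [min_eq_right h4, min_eq_left h5]
      exact (min_le_right _ _).trans (by linarith)
    · rw [min_eq_right h4, min_eq_right h5]
      exact (min_le_right _ _).trans (by linarith)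
  have h1 := le_warpDist hadm p q
  rw [h] at h1
  have h2 : coneDist p q ≤ 0 := by
    rcases min_le_iff.1 h1 with h3 | h3
    · exact h3
    · exact absurd h3 (by norm_num)
  obtain ⟨x, t, ht⟩ := p
  obtain ⟨y, s, hs⟩ := q
  have ht' : (1 : ℝ) ≤ t := ht
  have hs' : (1 : ℝ) ≤ s := hs
  simp only [coneDist] at h2
  have h3 := abs_nonneg (t - s)
  have h4 : 1 ≤ min t s := le_min ht' hs'
  have h5 : dist x y ≤ min t s * dist x y := by
    have := mul_le_mul_of_nonneg_right h4 (dist_nonneg (x := x) (y := y))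
    linarith
  have h6 := dist_nonneg (x := x) (y := y)
  have h7 : dist x y = 0 := by linarith
  have h8 : |t - s| = 0 := by linarith
  have h9 : t = s := by
    have := abs_eq_zero.1 h8
    linarith
  subst h9
  have h10 : x = y := dist_eq_zero.1 h7
  subst h10
  rfl

private lemma wc6_continuous_coneDist :
    Continuous (fun z : Cone M × Cone M => coneDist z.1 z.2) := by
  unfold coneDist
  fun_prop

theorem continuous_warpDist (S : Set G) :
    Continuous (fun z : Cone M × Cone M => warpDist S z.1 z.2) := by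
  rw [continuous_iff_continuousAt]
  intro z
  unfold ContinuousAt
  rw [tendsto_iff_dist_tendsto_zero]
  have hA := warpDist_isAdm (M := M) S
  have hb : ∀ z' : Cone M × Cone M, dist (warpDist S z'.1 z'.2) (warpDist S z.1 z.2) ≤
      coneDist z.1 z'.1 + coneDist z.2 z'.2 := by
    intro z'
    rw [Real.dist_eq, abs_le]
    have h1 := hA.tri z'.1 z.1 z'.2
    have h2 := hA.tri z.1 z.2 z'.2
    have h3 := hA.tri z.1 z'.1 z.2
    have h4 := hA.tri z'.1 z'.2 z.2
    have h5 := hA.le_cone z.1 z'.1
    have h6 := hA.le_cone z.2 z'.2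
    have h7 := hA.symm z.1 z'.1
    have h8 := hA.symm z.2 z'.2
    constructor <;> linarith
  refine squeeze_zero (fun _ => dist_nonneg) hb ?_
  have hc : Continuous (fun z' : Cone M × Cone M => coneDist z.1 z'.1 + coneDist z.2 z'.2) := by
    refine Continuous.add ?_ ?_
    · exact wc6_continuous_coneDist.comp (f := fun z' : Cone M × Cone M => (z.1, z'.1))
        (by fun_prop)
    · exact wc6_continuous_coneDist.comp (f := fun z' : Cone M × Cone M => (z.2, z'.2))
        (by fun_prop)
  have h0 := hc.tendsto z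
  simpa [wc6_coneDist_self] using h0

theorem push_zero {σ : ℝ → M → M} (h : Radial G M σ) (p : Cone M) : push σ 0 p = p := by
  obtain ⟨x, t, ht⟩ := p
  have ht' : (1 : ℝ) ≤ t := ht
  have h1 : t / t = 1 := div_self (by linarith)
  simp only [push, Nat.cast_zero, add_zero, h1, h.one]

private lemma wc6_frac_mem (t : ℝ) (ht : 1 ≤ t) (n : ℕ) :
    0 ≤ t / (t + n) ∧ t / (t + n) ≤ 1 := by
  have hn : (0 : ℝ) ≤ n := Nat.cast_nonneg n
  constructor
  · positivity
  · rw [div_le_one (by linarith)]
    linarith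

private lemma wc6_key {σ : ℝ → M → M} (h : Radial G M σ) (n : ℕ) (x y : M) (t s : ℝ)
    (ht : 1 ≤ t) (hts : t ≤ s) :
    (t + n) * dist (σ (t / (t + n)) x) (σ (s / (s + n)) y) ≤ t * dist x y + (s - t) := by
  have hn : (0 : ℝ) ≤ n := Nat.cast_nonneg n
  have hs : 1 ≤ s := ht.trans hts
  obtain ⟨a0, a1⟩ := wc6_frac_mem t ht n
  obtain ⟨b0, b1⟩ := wc6_frac_mem s hs n
  have h1 := dist_triangle (σ (t / (t + n)) x) (σ (t / (t + n)) y) (σ (s / (s + n)) y)
  have h2 := h.contr _ a0 a1 x y
  have h3 := h.lip _ _ a0 a1 b0 b1 y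
  have hpos : 0 < t + (n : ℝ) := by linarith
  have hpos' : 0 < s + (n : ℝ) := by linarith
  have h4 : (t + n) * (t / (t + n) * dist x y) = t * dist x y := by
    field_simp
  have h5 : (t + n) * |t / (t + n) - s / (s + n)| ≤ s - t := by
    have e1 : t / (t + n) - s / (s + n) = -(n * (s - t) / ((t + n) * (s + n))) := by
      field_simp
      ring
    rw [e1, abs_neg, abs_of_nonneg (by
      have : 0 ≤ s - t := by linarith
      positivity)]
    have e2 : (t + n) * (n * (s - t) / ((t + n) * (s + n))) = (s - t) * (n / (s + n)) := by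
      field_simp
    rw [e2]
    have e3 : (n : ℝ) / (s + n) ≤ 1 := by
      rw [div_le_one hpos']
      linarith
    have := mul_le_mul_of_nonneg_left e3 (show 0 ≤ s - t by linarith)
    linarith
  calc (t + n) * dist (σ (t / (t + n)) x) (σ (s / (s + n)) y)
      ≤ (t + n) * (t / (t + n) * dist x y + |t / (t + n) - s / (s + n)|) :=
        mul_le_mul_of_nonneg_left (by linarith) hpos.le
    _ = (t + n) * (t / (t + n) * dist x y) + (t + n) * |t / (t + n) - s / (s + n)| := by ring
    _ ≤ t * dist x y + (s - t) := by rw [h4]; linarith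

private lemma wc6_push_cone {σ : ℝ → M → M} (h : Radial G M σ) (n : ℕ) (p q : Cone M) :
    coneDist (push σ n p) (push σ n q) ≤ 2 * coneDist p q := by
  wlog hle : (p.2 : ℝ) ≤ q.2 generalizing p q with H
  · rw [wc6_coneDist_symm (push σ n p), wc6_coneDist_symm p]
    exact H q p (le_of_not_ge hle)
  have ht : (1 : ℝ) ≤ p.2 := p.2.2
  have hk := wc6_key h n p.1 q.1 p.2 q.2 ht hle
  simp only [coneDist, push]
  have e1 : |(p.2 : ℝ) + n - (q.2 + n)| = q.2 - p.2 := by
    rw [abs_of_nonpos (by linarith)]; ring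
  have e2 : |(p.2 : ℝ) - q.2| = q.2 - p.2 := by
    rw [abs_of_nonpos (by linarith)]; ring
  have e3 : min ((p.2 : ℝ) + n) (q.2 + n) = p.2 + n := min_eq_left (by linarith)
  have e4 : min (p.2 : ℝ) q.2 = p.2 := min_eq_left hle
  rw [e1, e2, e3, e4]
  have h0 : 0 ≤ (p.2 : ℝ) * dist p.1 q.1 := mul_nonneg (by linarith) dist_nonneg
  linarith

theorem push_lip {σ : ℝ → M → M} (h : Radial G M σ) (S : Set G) (n : ℕ) (p q : Cone M) :
    warpDist S (push σ n p) (push σ n q) ≤ 2 * warpDist S p q := by
  have hA := warpDist_isAdm (M := M) S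
  have hadm : IsAdm S (fun p q : Cone M => warpDist S (push σ n p) (push σ n q) / 2) := by
    refine ⟨fun p => ?_, fun p q => ?_, fun p q r => ?_, fun p q => ?_, fun s hs x t => ?_⟩
    · simp only [hA.self, zero_div]
    · simp only [hA.symm (push σ n p) (push σ n q)]
    · have := hA.tri (push σ n p) (push σ n q) (push σ n r)
      linarith
    · have h1 := hA.le_cone (push σ n p) (push σ n q)
      have h2 := wc6_push_cone h n p q
      linarith
    · have h1 : push σ n (s • x, t) = (s • (push σ n (x, t)).1, (push σ n (x, t)).2) := by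
        simp only [push, h.smul]
      have h2 := hA.le_one s hs (push σ n (x, t)).1 (push σ n (x, t)).2
      have h3 : warpDist S (push σ n (x, t)) (push σ n (s • x, t)) ≤ 1 := by
        rw [h1]; exact h2
      show warpDist S (push σ n (x, t)) (push σ n (s • x, t)) / 2 ≤ 1
      linarith
  have := le_warpDist hadm p q
  linarith

theorem push_step {σ : ℝ → M → M} (h : Radial G M σ) (S : Set G) (n : ℕ) (p : Cone M) :
    warpDist S (push σ n p) (push σ (n + 1) p) ≤ 2 := by
  have hA := warpDist_isAdm (M := M) S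
  refine (hA.le_cone _ _).trans ?_
  obtain ⟨x, t, ht⟩ := p
  have ht' : (1 : ℝ) ≤ t := ht
  have hn : (0 : ℝ) ≤ n := Nat.cast_nonneg n
  obtain ⟨a0, a1⟩ := wc6_frac_mem t ht' n
  obtain ⟨b0, b1⟩ := wc6_frac_mem t ht' (n + 1)
  have h3 := h.lip _ _ a0 a1 b0 b1 x
  simp only [coneDist, push]
  push_cast at b0 b1 h3 ⊢
  have e1 : |t + (n : ℝ) - (t + (n + 1))| = 1 := by
    rw [show t + (n : ℝ) - (t + (n + 1)) = -1 by ring]
    simp
  have e2 : min (t + (n : ℝ)) (t + (n + 1)) = t + n := min_eq_left (by linarith)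
  rw [e1, e2]
  have hpos : 0 < t + (n : ℝ) := by linarith
  have hpos' : 0 < t + ((n : ℝ) + 1) := by linarith
  have e3 : (t + n) * |t / (t + n) - t / (t + (n + 1))| ≤ 1 := by
    have e4 : t / (t + n) - t / (t + (n + 1)) = t / ((t + n) * (t + (n + 1))) := by
      field_simp
      ring
    rw [e4, abs_of_nonneg (by positivity)]
    have e5 : (t + n) * (t / ((t + n) * (t + (n + 1)))) = t / (t + (n + 1)) := by
      field_simp
    rw [e5]
    exact b1
  have e6 := mul_le_mul_of_nonneg_left h3 hpos.le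
  linarith

theorem push_continuous {σ : ℝ → M → M} (h : Radial G M σ) (n : ℕ) :
    Continuous (push σ n) := by
  have hfrac : Continuous (fun p : Cone M => (p.2 : ℝ) / (p.2 + n)) := by
    refine Continuous.div (by fun_prop) (by fun_prop) ?_
    intro p
    have h1 : (1 : ℝ) ≤ p.2 := p.2.2
    have hn : (0 : ℝ) ≤ n := Nat.cast_nonneg n
    linarith
  refine Continuous.prodMk ?_ ?_
  · rw [continuous_iff_continuousAt]
    intro p
    unfold ContinuousAt
    rw [tendsto_iff_dist_tendsto_zero]
    have hb : ∀ q : Cone M, dist (σ ((q.2 : ℝ) / (q.2 + n)) q.1) (σ ((p.2 : ℝ) / (p.2 + n)) p.1) ≤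
        dist q.1 p.1 + |(q.2 : ℝ) / (q.2 + n) - (p.2 : ℝ) / (p.2 + n)| := by
      intro q
      obtain ⟨a0, a1⟩ := wc6_frac_mem q.2 q.2.2 n
      obtain ⟨b0, b1⟩ := wc6_frac_mem p.2 p.2.2 n
      have h1 := dist_triangle (σ ((q.2 : ℝ) / (q.2 + n)) q.1) (σ ((q.2 : ℝ) / (q.2 + n)) p.1)
        (σ ((p.2 : ℝ) / (p.2 + n)) p.1)
      have h2 := h.contr _ a0 a1 q.1 p.1
      have h3 := h.lip _ _ a0 a1 b0 b1 p.1
      have h4 := mul_le_mul_of_nonneg_right a1 (dist_nonneg (x := q.1) (y := p.1))
      linarith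
    refine squeeze_zero (fun _ => dist_nonneg) hb ?_
    have hc : Continuous (fun q : Cone M =>
        dist q.1 p.1 + |(q.2 : ℝ) / (q.2 + n) - (p.2 : ℝ) / (p.2 + n)|) := by
      refine Continuous.add (by fun_prop) ?_
      exact (hfrac.sub continuous_const).abs
    have h0 := hc.tendsto p
    simpa using h0
  · exact Continuous.subtype_mk (by fun_prop) _

end WC6

end Pool.Agent.Helper84.WC
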